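import Pool.Agent.U115.WN.Stm
import Pool.Agent.U375.WM.CMA

/-!
# Project WN, package CMA2 (helper981): the product inequality for the alternating forms, sharp form
-/

set_option autoImplicit false

open scoped Classical
open Finset Pool.Agent.U115.WM Pool.Agent.U115.WN Pool.Agent.U375.WM

namespace Pool.Agent.U981.WN

lemma spr_le (k : ℕ) (e : Fin k → ℕ) (hk : 2 ≤ k) (he : Monotone e) :
    spr e ≤ e ⟨k - 1, by omega⟩ - e ⟨0, by omega⟩ := by
  unfold spr
  apply Finset.sup_le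
  intro p _
  have h1 : e p.2 ≤ e ⟨k - 1, by omega⟩ := he (Fin.le_def.2 (by have := p.2.isLt; simp; omega))
  have h2 : e ⟨0, by omega⟩ ≤ e p.1 := he (Fin.le_def.2 (by simp))
  omega

lemma sum_gap2 (k : ℕ) (e : Fin k → ℕ) (hk : 2 ≤ k) (he : Monotone e) :
    ∑ p ∈ univ.filter (fun p : Fin k × Fin k => p.1 < p.2),
      (if p.2.rev < p.1 then e p.1 - e p.2.rev else 0) + spr e ≤
    ∑ p ∈ univ.filter (fun p : Fin k × Fin k => p.1 < p.2), (e p.2 - e p.1) := by
  set P := univ.filter (fun p : Fin k × Fin k => p.1 < p.2) with hP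
  set c : Fin k × Fin k := (⟨0, by omega⟩, ⟨k - 1, by omega⟩) with hc
  have hcP : c ∈ P := by
    rw [hP, mem_filter]
    refine ⟨mem_univ _, ?_⟩
    rw [Fin.lt_def]
    simp only [hc]
    omega
  rw [← sum_filter]
  have hinj : Set.InjOn (fun p : Fin k × Fin k => (p.2.rev, p.1))
      ((P.filter fun p => p.2.rev < p.1 : Finset (Fin k × Fin k)) : Set (Fin k × Fin k)) := by
    rintro ⟨a, b⟩ _ ⟨c, d⟩ _ h
    simp only [Prod.mk.injEq] at h
    exact Prod.ext h.2 (Fin.rev_injective h.1)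
  have h1 := sum_image (f := fun p : Fin k × Fin k => e p.2 - e p.1) hinj
  rw [← h1]
  have h2 : (P.filter fun p => p.2.rev < p.1).image (fun p : Fin k × Fin k => (p.2.rev, p.1)) ⊆
      P.erase c := by
    intro q hq
    obtain ⟨p, hp, rfl⟩ := mem_image.1 hq
    rw [mem_erase]
    refine ⟨?_, mem_filter.2 ⟨mem_univ _, (mem_filter.1 hp).2⟩⟩
    intro h
    have h3 : p.1 < p.2 := (mem_filter.1 (mem_filter.1 hp).1).2
    have h4 : p.1 = ⟨k - 1, by omega⟩ := (Prod.mk.injEq _ _ _ _ ▸ h).2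
    rw [h4, Fin.lt_def] at h3
    have := p.2.isLt
    simp only at h3
    omega
  have h3 := sum_le_sum_of_subset (f := fun p : Fin k × Fin k => e p.2 - e p.1) h2
  have h4 := sum_erase_add P (fun p : Fin k × Fin k => e p.2 - e p.1) hcP
  have h5 := spr_le k e hk he
  rw [← h4]
  exact add_le_add h3 h5

theorem t_CMA2 : S_CMA2 := by
  intro k e M hk he hM hi
  set P := univ.filter (fun p : Fin k × Fin k => p.1 < p.2) with hP
  have hsub : ∏ α : {p : Fin k × Fin k // p.1 < p.2}, max 1 (M / 2 ^ (e α.1.1 + e α.1.2)) =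
      ∏ p ∈ P, max 1 (M / 2 ^ (e p.1 + e p.2)) := by
    rw [prod_subtype P (p := fun p : Fin k × Fin k => p.1 < p.2)
      (fun p => by rw [hP, mem_filter]; simp)]
  rw [hsub]
  -- the factors
  have hfac : ∀ p ∈ P, max 1 (M / 2 ^ (e p.1 + e p.2)) ≤
      (M / 2 ^ (e p.1 + e p.2)) * 2 ^ (if p.2.rev < p.1 then e p.1 - e p.2.rev else 0) := by
    intro p hp
    have h2 : (0 : ℝ) < 2 ^ (e p.1 + e p.2) := by positivity
    split_ifs with h
    · have h3 : e p.2.rev ≤ e p.1 := he h.le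
      apply max_le
      · rw [div_mul_eq_mul_div, le_div_iff₀ h2, one_mul]
        calc (2 : ℝ) ^ (e p.1 + e p.2)
            = 2 ^ (e p.2 + e p.2.rev) * 2 ^ (e p.1 - e p.2.rev) := by
              rw [← pow_add]
              congr 1
              omega
          _ ≤ M * 2 ^ (e p.1 - e p.2.rev) := mul_le_mul_of_nonneg_right (hi p.2) (by positivity)
      · exact le_mul_of_one_le_right (by positivity) (one_le_pow₀ (by norm_num))
    · rw [pow_zero, mul_one]
      have h3 : e p.1 ≤ e p.2.rev := he (not_lt.1 h)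
      apply max_le _ le_rfl
      rw [le_div_iff₀ h2, one_mul]
      refine le_trans (pow_le_pow_right₀ (by norm_num) ?_) (hi p.2)
      omega
  have h1 : ∏ p ∈ P, max 1 (M / 2 ^ (e p.1 + e p.2)) ≤
      (∏ p ∈ P, (M / 2 ^ (e p.1 + e p.2))) *
        ∏ p ∈ P, (2 : ℝ) ^ (if p.2.rev < p.1 then e p.1 - e p.2.rev else 0) := by
    rw [← prod_mul_distrib]
    exact prod_le_prod (fun p _ => le_trans zero_le_one (le_max_left _ _)) hfac
  have h2 : ∏ p ∈ P, (2 : ℝ) ^ (if p.2.rev < p.1 then e p.1 - e p.2.rev else 0) ≤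
      gap e * (2 : ℝ) ^ (-(spr e : ℝ) / 2) := by
    have h3 : gap e = ∏ p ∈ P, (2 : ℝ) ^ (e p.2 - e p.1) := by
      unfold gap
      rw [hP]
    rw [h3, prod_pow_eq_pow_sum, prod_pow_eq_pow_sum, ← Real.rpow_natCast, ← Real.rpow_natCast,
      ← Real.rpow_add (by norm_num)]
    apply Real.rpow_le_rpow_of_exponent_le (by norm_num)
    have h4 := sum_gap2 k e hk he
    rw [← hP] at h4
    have h5 : ((∑ p ∈ P, (if p.2.rev < p.1 then e p.1 - e p.2.rev else 0) + spr e : ℕ) : ℝ) ≤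
        ((∑ p ∈ P, (e p.2 - e p.1) : ℕ) : ℝ) := by exact_mod_cast h4
    rw [Nat.cast_add] at h5
    have h6 : (0 : ℝ) ≤ spr e := Nat.cast_nonneg _
    linarith
  have h3 : ∏ p ∈ P, (M / 2 ^ (e p.1 + e p.2)) =
      (M ^ (k : ℝ) * vol e ^ (-2 : ℝ)) ^ (((k : ℝ) - 1) / 2) := by
    have hv : vol e = 2 ^ ∑ i, e i := by
      unfold vol
      rw [prod_pow_eq_pow_sum]
    have hv0 : 0 < vol e := by
      rw [hv]
      positivity
    rw [prod_div_distrib, prod_const, prod_pow_eq_pow_sum, sum_pairs]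
    have hc : (P.card : ℝ) = k * (((k : ℝ) - 1) / 2) := by
      have h4 := card_pairs k
      have h5 : ((2 * P.card : ℕ) : ℝ) = (((k - 1) * k : ℕ) : ℝ) := by rw [h4]
      rw [Nat.cast_mul, Nat.cast_mul, Nat.cast_sub (by omega : 1 ≤ k)] at h5
      push_cast at h5
      linarith
    rw [Real.mul_rpow (by positivity) (by positivity), ← Real.rpow_mul hM.le,
      ← Real.rpow_mul hv0.le, ← hc, Real.rpow_natCast, div_eq_mul_inv]
    congr 1
    have h6 : (-2 : ℝ) * (((k : ℝ) - 1) / 2) = -((k - 1 : ℕ) : ℝ) := by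
      rw [Nat.cast_sub (by omega : 1 ≤ k)]
      push_cast
      ring
    rw [h6, Real.rpow_neg hv0.le, Real.rpow_natCast, hv, ← pow_mul, mul_comm]
  rw [← h3, mul_assoc]
  refine h1.trans (mul_le_mul_of_nonneg_left h2 ?_)
  exact prod_nonneg fun p _ => by positivity

end Pool.Agent.U981.WN
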